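import Pool.Agent.Run7.h146.Met.I2

/-!
# Piece LCB of project Met (MP_dd21b1_pr, helper146): along a line the event `A` occurs about as
often as expected
-/

set_option autoImplicit false

open MeasureTheory Filter Topology ENNReal

namespace Run7.h15.Met

open Run7.h146.Met

open Classical in
theorem res_sh {d : ℕ} (x : V d) (R : ℝ) (F : Finset (X d)) :
    res (Metric.ball 0 R) (sh x F) = sh x (res (Metric.ball x R) F) := by
  unfold res sh
  ext y
  simp only [Finset.mem_filter, Finset.mem_image]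
  constructor
  · rintro ⟨⟨w, hw, rfl⟩, hb⟩
    refine ⟨w, ⟨hw, ?_⟩, rfl⟩
    simpa [Metric.mem_ball, dist_eq_norm] using hb
  · rintro ⟨w, ⟨hw, hb⟩, rfl⟩
    refine ⟨⟨w, hw, rfl⟩, ?_⟩
    simpa [Metric.mem_ball, dist_eq_norm] using hb

theorem rd_dist {d : ℕ} {h : ℝ} (hh : 0 < h) (x : V d) : dist (rd h x) x ≤ h * Real.sqrt d := by
  rw [EuclideanSpace.dist_eq]
  have h2 : ∑ i, dist (rd h x i) (x i) ^ 2 ≤ (h * Real.sqrt d) ^ 2 := by
    rw [mul_pow, Real.sq_sqrt (Nat.cast_nonneg d)]
    calc _ ≤ ∑ i : Fin d, h ^ 2 := by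
          apply Finset.sum_le_sum
          intro i _
          have h1 : |rd h x i - x i| ≤ h := by
            have e1 : rd h x i = h * ⌊x i / h⌋ := rfl
            rw [e1]
            have h3 : (⌊x i / h⌋ : ℝ) ≤ x i / h := Int.floor_le _
            have h4 : x i / h < ⌊x i / h⌋ + 1 := Int.lt_floor_add_one _
            rw [le_div_iff₀ hh] at h3
            rw [div_lt_iff₀ hh] at h4
            rw [abs_le]
            constructor <;> nlinarith
          rw [Real.dist_eq]
          exact pow_le_pow_left₀ (abs_nonneg _) h1 2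
      _ = h ^ 2 * d := by simp [mul_comm]
  calc _ ≤ Real.sqrt ((h * Real.sqrt d) ^ 2) := Real.sqrt_le_sqrt h2
    _ = _ := Real.sqrt_sq (by positivity)

/-- centred indicator -/
noncomputable def Yv {Ω : Type*} (E : ℕ → Set Ω) (a : ℝ) (t : ℕ) (ω : Ω) : ℝ :=
  (E t).indicator (fun _ => (1 : ℝ)) ω - a

theorem cheb {Ω : Type*} [MeasurableSpace Ω] (μ : Measure Ω) [IsProbabilityMeasure μ]
    (E : ℕ → Set Ω) (hE : ∀ t, MeasurableSet (E t)) (a : ℝ) (M N : ℕ) (ha : 0 < a) (ha1 : a ≤ 1)
    (hN : 0 < N) (I : Finset ℕ) (hI : I.card = N)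
    (h1 : ∀ t ∈ I, μ.real (E t) = a)
    (h2 : ∀ t ∈ I, ∀ s ∈ I, t + M < s → μ.real (E t ∩ E s) = a * a) :
    μ.real {ω | (∑ t ∈ I, (E t).indicator (fun _ => (1 : ℝ)) ω) < a * N / 2} ≤
      4 * (2 * M + 1) / (a ^ 2 * N) := by
  classical
  have hmY : ∀ t, Measurable (Yv E a t) := fun t =>
    ((measurable_const).indicator (hE t)).sub_const a
  have hbY : ∀ t ω, |Yv E a t ω| ≤ 1 := by
    intro t ω
    unfold Yv
    by_cases hω : ω ∈ E t
    · rw [Set.indicator_of_mem hω, abs_le]; constructor <;> linarith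
    · rw [Set.indicator_of_notMem hω, abs_le]; constructor <;> linarith
  have hiYY : ∀ t s, Integrable (fun ω => Yv E a t ω * Yv E a s ω) μ := by
    intro t s
    refine Integrable.of_bound ((hmY t).mul (hmY s)).aestronglyMeasurable 1
      (Filter.Eventually.of_forall fun ω => ?_)
    rw [Real.norm_eq_abs, abs_mul]
    exact mul_le_one₀ (hbY t ω) (abs_nonneg _) (hbY s ω)
  have hYY1 : ∀ t s, ∫ ω, Yv E a t ω * Yv E a s ω ∂μ ≤ 1 := by
    intro t s
    calc _ ≤ ∫ ω, (1 : ℝ) ∂μ := by
          apply integral_mono (hiYY t s) (integrable_const _)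
          intro ω
          exact (le_abs_self _).trans (by
            rw [abs_mul]; exact mul_le_one₀ (hbY t ω) (abs_nonneg _) (hbY s ω))
      _ = 1 := by simp
  have hYY0 : ∀ t ∈ I, ∀ s ∈ I, t + M < s → ∫ ω, Yv E a t ω * Yv E a s ω ∂μ = 0 := by
    intro t ht s hs hts
    have e1 : (fun ω => Yv E a t ω * Yv E a s ω) = fun ω =>
        (E t ∩ E s).indicator (fun _ => (1 : ℝ)) ω - a * (E t).indicator (fun _ => (1 : ℝ)) ω -
          a * (E s).indicator (fun _ => (1 : ℝ)) ω + a * a := by
      funext ω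
      unfold Yv
      by_cases hω : ω ∈ E t <;> by_cases hω' : ω ∈ E s <;>
        simp [Set.indicator, hω, hω'] <;> ring
    have i1 : Integrable (fun ω => (E t ∩ E s).indicator (fun _ => (1 : ℝ)) ω) μ :=
      (integrable_const _).indicator ((hE t).inter (hE s))
    have i2 : ∀ u, Integrable (fun ω => a * (E u).indicator (fun _ => (1 : ℝ)) ω) μ := fun u =>
      ((integrable_const _).indicator (hE u)).const_mul a
    have k1 := integral_add (μ := μ) (f := fun ω =>
      (E t ∩ E s).indicator (fun _ => (1 : ℝ)) ω - a * (E t).indicator (fun _ => (1 : ℝ)) ω -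
          a * (E s).indicator (fun _ => (1 : ℝ)) ω) (g := fun _ => a * a)
      ((i1.sub (i2 t)).sub (i2 s)) (integrable_const _)
    have k2 := integral_sub (μ := μ) (f := fun ω =>
      (E t ∩ E s).indicator (fun _ => (1 : ℝ)) ω - a * (E t).indicator (fun _ => (1 : ℝ)) ω)
      (g := fun ω => a * (E s).indicator (fun _ => (1 : ℝ)) ω) (i1.sub (i2 t)) (i2 s)
    have k3 := integral_sub (μ := μ) (f := fun ω => (E t ∩ E s).indicator (fun _ => (1 : ℝ)) ω)
      (g := fun ω => a * (E t).indicator (fun _ => (1 : ℝ)) ω) i1 (i2 t)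
    rw [e1, k1, k2, k3, integral_const_mul,
      integral_const_mul, integral_indicator_const _ ((hE t).inter (hE s)),
      integral_indicator_const _ (hE t), integral_indicator_const _ (hE s), h1 t ht, h1 s hs,
      h2 t ht s hs hts]
    simp
  have hsum : ∫ ω, (∑ t ∈ I, Yv E a t ω) ^ 2 ∂μ ≤ N * (2 * M + 1) := by
    have e2 : (fun ω => (∑ t ∈ I, Yv E a t ω) ^ 2) = fun ω =>
        ∑ t ∈ I, ∑ s ∈ I, Yv E a t ω * Yv E a s ω := by
      funext ω
      rw [sq, Finset.sum_mul_sum]
    rw [e2, integral_finsetSum _ (fun t _ => integrable_finsetSum _ fun s _ => hiYY t s)]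
    calc _ ≤ ∑ t ∈ I, ((2 * M + 1 : ℕ) : ℝ) := by
          apply Finset.sum_le_sum
          intro t ht
          rw [integral_finsetSum _ (fun s _ => hiYY t s)]
          calc _ ≤ ∑ s ∈ I, (if s ∈ Finset.Icc (t - M) (t + M) then (1 : ℝ) else 0) := by
                apply Finset.sum_le_sum
                intro s hs
                split_ifs with hc
                · exact hYY1 t s
                · rw [Finset.mem_Icc] at hc
                  rcases Nat.lt_or_ge (t + M) s with h3 | h3
                  · exact (hYY0 t ht s hs h3).le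
                  · have h4 : s + M < t := by omega
                    have h5 := hYY0 s hs t ht h4
                    have e3 : (fun ω => Yv E a t ω * Yv E a s ω) =
                        fun ω => Yv E a s ω * Yv E a t ω := by
                      funext ω; ring
                    rw [e3, h5]
            _ = (((I.filter fun s => s ∈ Finset.Icc (t - M) (t + M)).card : ℕ) : ℝ) := by
                rw [Finset.sum_boole]
            _ ≤ ((2 * M + 1 : ℕ) : ℝ) := by
                have h6 : (I.filter fun s => s ∈ Finset.Icc (t - M) (t + M)).card ≤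
                    (Finset.Icc (t - M) (t + M)).card := by
                  apply Finset.card_le_card
                  intro s hs
                  exact (Finset.mem_filter.mp hs).2
                have h7 : (Finset.Icc (t - M) (t + M)).card ≤ 2 * M + 1 := by
                  rw [Nat.card_Icc]; omega
                exact_mod_cast h6.trans h7
      _ = N * (2 * M + 1) := by
          rw [Finset.sum_const, hI, nsmul_eq_mul]; push_cast; ring
  have hint : Integrable (fun ω => (∑ t ∈ I, Yv E a t ω) ^ 2) μ := by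
    have e2 : (fun ω => (∑ t ∈ I, Yv E a t ω) ^ 2) = fun ω =>
        ∑ t ∈ I, ∑ s ∈ I, Yv E a t ω * Yv E a s ω := by
      funext ω
      rw [sq, Finset.sum_mul_sum]
    rw [e2]
    exact integrable_finsetSum _ fun t _ => integrable_finsetSum _ fun s _ => hiYY t s
  have hMk := mul_meas_ge_le_integral_of_nonneg (μ := μ)
    (f := fun ω => (∑ t ∈ I, Yv E a t ω) ^ 2)
    (Filter.Eventually.of_forall fun ω => sq_nonneg _) hint ((a * N / 2) ^ 2)
  have hNr : (0 : ℝ) < N := by exact_mod_cast hN
  have hsub : μ.real {ω | (∑ t ∈ I, (E t).indicator (fun _ => (1 : ℝ)) ω) < a * N / 2} ≤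
      μ.real {ω | (a * N / 2) ^ 2 ≤ (∑ t ∈ I, Yv E a t ω) ^ 2} := by
    apply measureReal_mono _ (measure_ne_top _ _)
    intro ω hω
    rw [Set.mem_ofPred_eq] at hω ⊢
    have e4 : ∑ t ∈ I, Yv E a t ω = (∑ t ∈ I, (E t).indicator (fun _ => (1 : ℝ)) ω) - a * N := by
      unfold Yv
      rw [Finset.sum_sub_distrib, Finset.sum_const, hI, nsmul_eq_mul]; ring
    rw [e4]
    have h8 : 0 < a * N := by positivity
    nlinarith
  have h9 : 0 < (a * N / 2) ^ 2 := by positivity
  calc _ ≤ _ := hsub
    _ ≤ (N * (2 * M + 1)) / (a * N / 2) ^ 2 := by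
        rw [le_div_iff₀ h9, mul_comm]
        exact hMk.trans hsum
    _ = 4 * (2 * M + 1) / (a ^ 2 * N) := by
        field_simp
        ring

/-- translation of the configuration -/
theorem sh_law (hMB : S_MB) (hMAP : S_MAP) {d : ℕ} (hd : 0 < d) (x : V d) (R : ℝ)
    (G : Finset (X d) → ℝ≥0∞) (hG : Measurable G) :
    ∫⁻ F, G (sh x F) ∂(poi (mB (Metric.ball x R))) = ∫⁻ F, G F ∂(PQ d R) := by
  classical
  have hv : volume (Metric.ball x R) ≠ ⊤ := measure_ball_lt_top.ne
  obtain ⟨hfin, -, htr, -⟩ := (hMB d hd).2.2.2 (Metric.ball x R) measurableSet_ball hv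
  haveI := hfin
  let e : X d ≃ᵐ X d := (MeasurableEquiv.subRight x).prodCongr (MeasurableEquiv.refl _)
  have he : ∀ z : X d, e z = (z.1 - x, z.2) := fun z => rfl
  have h1 : (mB (Metric.ball x R)).map e = mB (Metric.ball (0 : V d) R) := by
    have h2 := htr (LinearIsometryEquiv.refl ℝ (V d)) (-x)
    have e1 : (fun z : X d => (-x + (LinearIsometryEquiv.refl ℝ (V d)) z.1,
        (LinearIsometryEquiv.refl ℝ (V d)) z.2)) = e := by
      funext z
      rw [he]
      simp only [LinearIsometryEquiv.coe_refl, id_eq]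
      rw [neg_add_eq_sub]
    have e2 : (fun y => -x + (LinearIsometryEquiv.refl ℝ (V d)) y) '' Metric.ball x R =
        Metric.ball (0 : V d) R := by
      ext y
      simp only [LinearIsometryEquiv.coe_refl, id_eq, Set.mem_image, Metric.mem_ball]
      constructor
      · rintro ⟨w, hw, rfl⟩
        rw [dist_zero_right, neg_add_eq_sub, ← dist_eq_norm]; exact hw
      · intro hy
        refine ⟨x + y, ?_, by abel⟩
        rw [dist_eq_norm, add_sub_cancel_left, ← dist_zero_right]; exact hy
    rw [e1, e2] at h2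
    exact h2
  have h3 := (hMAP d (mB (Metric.ball x R)) e G hG).2
  rw [h1] at h3
  unfold PQ
  rw [h3]
  apply lintegral_congr
  intro F
  congr 1

theorem t_LCB : S_PO1 → S_MB → S_IND → S_MAP → S_MEAS → S_LCB := by
  intro hPO1 hMB hIND hMAP hMEAS d h R A η hd hh hR hA hPA hη
  classical
  obtain ⟨hres, hsh, -⟩ := hMEAS d 1 hd one_pos
  have hprob : ∀ B : Set (V d), MeasurableSet B → volume B ≠ ⊤ →
      IsProbabilityMeasure (poi (mB B)) := by
    intro B hB hv
    haveI := ((hMB d hd).2.2.2 B hB hv).1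
    exact (hPO1 d (mB B)).1
  haveI hPQp : IsProbabilityMeasure (PQ d R) :=
    hprob _ measurableSet_ball measure_ball_lt_top.ne
  have ha : 0 < (PQ d R A).toReal := ENNReal.toReal_pos hPA.ne' (measure_ne_top _ _)
  have ha1 : (PQ d R A).toReal ≤ 1 := by
    have := prob_le_one (μ := PQ d R) (s := A)
    exact ENNReal.toReal_le_of_le_ofReal zero_le_one (by simpa using this)
  have hcpos : 0 ≤ h * Real.sqrt d := by positivity
  obtain ⟨M, hM⟩ := exists_nat_ge (2 * R + 2 * (h * Real.sqrt d))
  obtain ⟨N₀, hN₀⟩ := exists_nat_gt (4 * (2 * M + 1) / ((PQ d R A).toReal ^ 2 * η))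
  have hN₀pos : 0 < N₀ := by
    rcases Nat.eq_zero_or_pos N₀ with h0 | h0
    · exfalso
      rw [h0] at hN₀
      have : (0 : ℝ) ≤ 4 * (2 * M + 1) / ((PQ d R A).toReal ^ 2 * η) := by positivity
      simp only [Nat.cast_zero] at hN₀
      linarith
    · exact h0
  refine ⟨N₀, fun N hN z B hz hB hvB hsub => ?_⟩
  haveI := hprob B hB hvB
  set x : ℕ → V d := fun t => rd h (pos z (t : ℝ)) with hx
  set E : ℕ → Set (Finset (X d)) := fun t => {F | res (Metric.ball 0 R) (sh (x t) F) ∈ A} with hEdef
  have hE : ∀ t, MeasurableSet (E t) := fun t =>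
    ((hres _ measurableSet_ball).comp (hsh (x t))) hA
  -- the functional
  have hGm : ∀ y : V d, Measurable (fun F : Finset (X d) => A.indicator (fun _ => (1 : ℝ≥0∞)) (sh y F)) :=
    fun y => (measurable_const.indicator hA).comp (hsh y)
  have hEi : ∀ t F, (E t).indicator (fun _ => (1 : ℝ≥0∞)) F =
      A.indicator (fun _ => (1 : ℝ≥0∞)) (sh (x t) (res (Metric.ball (x t) R) F)) := by
    intro t F
    rw [← res_sh]
    by_cases hF : res (Metric.ball 0 R) (sh (x t) F) ∈ A
    · rw [Set.indicator_of_mem hF, Set.indicator_of_mem (show F ∈ E t from hF)]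
    · rw [Set.indicator_of_notMem hF, Set.indicator_of_notMem (show F ∉ E t from hF)]
  have hlawx : ∀ y : V d, ∫⁻ F, A.indicator (fun _ => (1 : ℝ≥0∞)) (sh y F)
      ∂(poi (mB (Metric.ball y R))) = PQ d R A := by
    intro y
    rw [sh_law hMB hMAP hd y R _ (measurable_const.indicator hA), lintegral_indicator_const hA,
      one_mul]
  have h1 : ∀ t ∈ Finset.Ico N (2 * N), (poi (mB B)) (E t) = PQ d R A := by
    intro t ht
    have hi := (hIND d B (Metric.ball (x t) R) ∅ ∅ hd hB hvB measurableSet_ball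
      MeasurableSet.empty MeasurableSet.empty (hsub t ht) (Set.empty_subset _)
      (Set.empty_subset _) (Set.disjoint_empty _) (Set.disjoint_empty _) (Set.disjoint_empty _)
      (fun F => A.indicator (fun _ => (1 : ℝ≥0∞)) (sh (x t) F)) (fun _ => 1) (fun _ => 1)
      (hGm (x t)) measurable_const measurable_const).2.1
    rw [hlawx] at hi
    rw [← hi, ← one_mul ((poi (mB B)) (E t)), ← lintegral_indicator_const (hE t)]
    exact lintegral_congr fun F => hEi t F
  have h2 : ∀ t ∈ Finset.Ico N (2 * N), ∀ s ∈ Finset.Ico N (2 * N), t + M < s →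
      (poi (mB B)) (E t ∩ E s) = PQ d R A * PQ d R A := by
    intro t ht s hs hts
    have hdist : R + R ≤ dist (x t) (x s) := by
      have d1 : dist (rd h (pos z (t : ℝ))) (pos z (t : ℝ)) ≤ h * Real.sqrt d := rd_dist hh _
      have d2 : dist (rd h (pos z (s : ℝ))) (pos z (s : ℝ)) ≤ h * Real.sqrt d := rd_dist hh _
      have d3 : dist (pos z (t : ℝ)) (pos z (s : ℝ)) = (s : ℝ) - t := by
        have e5 : pos z (t : ℝ) - pos z (s : ℝ) = ((t : ℝ) - s) • z.2 := by
          unfold pos
          rw [sub_smul]; abel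
        rw [dist_eq_norm, e5, norm_smul, hz, mul_one, Real.norm_eq_abs, abs_sub_comm,
          abs_of_nonneg]
        have : (t : ℝ) ≤ s := by exact_mod_cast (by omega : t ≤ s)
        linarith
      have d4 : dist (pos z (t : ℝ)) (pos z (s : ℝ)) ≤
          dist (pos z (t : ℝ)) (x t) + dist (x t) (x s) + dist (x s) (pos z (s : ℝ)) :=
        (dist_triangle4 _ _ _ _)
      have d5 : dist (pos z (t : ℝ)) (x t) ≤ h * Real.sqrt d := by rw [dist_comm]; exact d1
      have d6 : dist (x s) (pos z (s : ℝ)) ≤ h * Real.sqrt d := d2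
      have d7 : (t : ℝ) + M ≤ s := by exact_mod_cast hts.le
      linarith
    have hi := (hIND d B (Metric.ball (x t) R) (Metric.ball (x s) R) ∅ hd hB hvB
      measurableSet_ball measurableSet_ball MeasurableSet.empty (hsub t ht) (hsub s hs)
      (Set.empty_subset _) (Metric.ball_disjoint_ball hdist) (Set.disjoint_empty _)
      (Set.disjoint_empty _)
      (fun F => A.indicator (fun _ => (1 : ℝ≥0∞)) (sh (x t) F))
      (fun F => A.indicator (fun _ => (1 : ℝ≥0∞)) (sh (x s) F)) (fun _ => 1)
      (hGm (x t)) (hGm (x s)) measurable_const).2.2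
    rw [hlawx, hlawx] at hi
    haveI := hprob ∅ MeasurableSet.empty (by simp)
    rw [lintegral_one, measure_univ, mul_one] at hi
    rw [← hi, ← one_mul ((poi (mB B)) (E t ∩ E s)),
      ← lintegral_indicator_const ((hE t).inter (hE s))]
    apply lintegral_congr
    intro F
    rw [mul_one, ← hEi t F, ← hEi s F]
    by_cases hω : F ∈ E t <;> by_cases hω' : F ∈ E s <;> simp [Set.indicator, hω, hω']
  have hNpos : 0 < N := lt_of_lt_of_le hN₀pos hN
  have key := cheb (poi (mB B)) E hE (PQ d R A).toReal M N ha ha1 hNpos (Finset.Ico N (2 * N))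
    (by rw [Nat.card_Ico]; omega)
    (fun t ht => by rw [measureReal_def, h1 t ht])
    (fun t ht s hs hts => by rw [measureReal_def, h2 t ht s hs hts, ENNReal.toReal_mul])
  have hset : {F : Finset (X d) | (((Finset.Ico N (2 * N)).filter fun t : ℕ =>
      res (Metric.ball 0 R) (sh (rd h (pos z (t : ℝ))) F) ∈ A).card : ℝ) <
        (PQ d R A).toReal * N / 2} =
      {F | (∑ t ∈ Finset.Ico N (2 * N), (E t).indicator (fun _ => (1 : ℝ)) F) <
        (PQ d R A).toReal * N / 2} := by
    ext F
    have e6 : (∑ t ∈ Finset.Ico N (2 * N), (E t).indicator (fun _ => (1 : ℝ)) F) =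
        (((Finset.Ico N (2 * N)).filter fun t : ℕ =>
      res (Metric.ball 0 R) (sh (rd h (pos z (t : ℝ))) F) ∈ A).card : ℝ) := by
      rw [← Finset.sum_boole]
      apply Finset.sum_congr rfl
      intro t _
      rfl
    rw [Set.mem_ofPred_eq, Set.mem_ofPred_eq, e6]
  have hfin : (poi (mB B)) {F : Finset (X d) | (((Finset.Ico N (2 * N)).filter fun t : ℕ =>
      res (Metric.ball 0 R) (sh (rd h (pos z (t : ℝ))) F) ∈ A).card : ℝ) <
        (PQ d R A).toReal * N / 2} ≤ ENNReal.ofReal η := by
    rw [hset, ← ofReal_measureReal (measure_ne_top _ _)]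
    apply ENNReal.ofReal_le_ofReal
    refine key.trans ?_
    have hNr : (0 : ℝ) < N := by exact_mod_cast hNpos
    have hNN : (N₀ : ℝ) ≤ N := by exact_mod_cast hN
    rw [div_le_iff₀ (by positivity)]
    rw [div_lt_iff₀ (by positivity)] at hN₀
    have : (N₀ : ℝ) * ((PQ d R A).toReal ^ 2 * η) ≤ N * ((PQ d R A).toReal ^ 2 * η) :=
      mul_le_mul_of_nonneg_right hNN (by positivity)
    nlinarith
  exact hfin

end Run7.h15.Met
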